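import Pool.Agent.Helper45M.TR.Psef
import Pool.Agent.N110.IM.Main
import Pool.Agent.N110.NV.Fin
import Pool.Agent.N110.RK.Stat
import Pool.Agent.R887.Exc

/-!
Varieties which are dominated by a variety with endomorphisms: the numerical dimension of the
canonical divisor is bounded by the number of the consecutive greatest dynamical degrees. The
canonical divisors are not assumed to be nef.
-/

set_option autoImplicit false

open FF Pool.Agent.W602.GT Pool.Agent.Y172 Pool.Agent.R887 Pool.Agent.N110
open Pool.Agent.Helper45M.TR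

/-- Let `X'` be a normal projective variety of dimension `n ≥ 1`, with generic point `y'`, and
`Δ' ≥ 0` a `ℚ`-divisor on `X'` (for instance `Δ' = 0`). Let `S` be a set of dominant rational
self-maps `f` of `X'`, given by the endomorphisms `φ = f^*` of the function field, of bounded degrees
(a single map, for instance). Suppose that

* all `f` in `S` are finite in codimension one (for instance surjective endomorphisms of `X'`), and
  `f^* (K_X' + Δ')` is at most `K_X' + Δ'` (no condition for `Δ' = 0`), or
* `f^* (K_X' + Δ')` is equal to `K_X' + Δ'` for all `f` in `S`, over the prime divisors of `X'` and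
  over the places with these images.

Suppose that the greatest of the joint dynamical degrees `λ 0, ..., λ n` of `S` (the dynamical
degrees of `f`, if `S = {f}`) is not attained at `ν + 1` consecutive indices.

Let `X` be any projective variety with canonical singularities (for instance smooth) which is
dominated by `X'`: there is a dominant rational map `X' ⇢ X`, generically finite, given by the
homomorphism `π` of the function fields. It has nothing to do with the maps `f`. Neither `K_X` nor
`K_X'` is assumed to be nef.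

Then the numerical dimension of `K_X` is less than `ν`, and so is the Kodaira dimension; if the
Kodaira dimension is at least `ν - 1`, then it is equal to the numerical dimension. If `ν = 1` (the
greatest dynamical degree is not attained at two consecutive indices), the irregularity of `X` is
zero and `K_X` is pseudo-effective, then the Kodaira dimension and the numerical dimension which is
defined by the number of the sections of `m K_X + A` are zero. -/
theorem Pool.Agent.Results.MP_fa3f7f_ag.EndomorphismPlateau.result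
    {K K' : Type} [Field K] [Algebra ℂ K] [Field K'] [Algebra ℂ K'] {N N' n : ℕ}
    {y : Fin (N + 1) → K} {y' : Fin (N' + 1) → K'} (hy : NormalModel y) (hy' : NormalModel y')
    (hn : Algebra.trdeg ℂ K = n) (hn' : Algebra.trdeg ℂ K' = n) (hn0 : 0 < n)
    {Δ' : Place ℂ K' → ℚ} (hΔ' : Effective y' Δ') {S : Set (K' →ₐ[ℂ] K')}
    (hS : (∀ φ ∈ S, FiniteCodimOne φ y' Δ') ∨
      (∀ φ ∈ S, SelfPullLe φ y' n Δ' ∧ SelfPushLe φ y' n Δ'))
    {C : ℕ} (hC : ∀ φ ∈ S, selfDegree φ y' n 1 ≤ C) {ν : ℕ} (hν : ν ≤ n)
    (hdeg : ∀ j, j + ν ≤ n → ∃ a ≤ ν, ∃ p ≤ n,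
      selfJointDegree S y' n (j + a) < selfJointDegree S y' n p)
    (hcan : Canonical y n) (π : K →ₐ[ℂ] K') :
    NumDimLt y n 0 ν ∧ ¬ KappaGe y n 0 ν ∧
      (∀ k, k + 1 = ν → KappaGe y n 0 k → Abundant y n 0) ∧
      (ν = 1 → LogPsef y n 0 → IrregularityZero y →
        (∃ m : ℕ, 1 ≤ m ∧ ∃ ω : (Fin n → Derivation ℂ K K) → K, ω ≠ 0 ∧ IsSection y n m 0 ω) ∧
        kodairaDim y n 0 = ((0 : ℕ) : WithBot ℕ) ∧
        ∀ A, Effective y A → Integral y A → numericalDim y n 0 A = ((0 : ℕ) : EReal)) := by
  have hz : {P : Place ℂ K | IsPrimeDivisor y P ∧ (0 : Place ℂ K → ℚ) P ≠ 0}.Finite :=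
    Set.finite_empty.subset (by rintro P ⟨-, h⟩; exact h rfl)
  have key : NumDimLt y' n Δ' ν := by
    by_contra hnum
    obtain ⟨j, hj, h4⟩ : ∃ j, j + ν ≤ n ∧ ∀ a ≤ ν, ∀ p ≤ n,
        selfJointDegree S y' n p ≤ selfJointDegree S y' n (j + a) := by
      rcases hS with h | h
      · exact plateau_fin hy' hn' hn0 hΔ'.2 h hC hν hnum
      · exact pplateau hy' hn' hΔ'.2 (fun φ hφ => (h φ hφ).1) (fun φ hφ => (h φ hφ).2) hC hν hnum
    obtain ⟨a, ha, p, hp, hlt⟩ := hdeg j hj
    exact absurd hlt (not_lt.2 (h4 a ha p hp))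
  have h2 := IM.numDimLt_can hy hy' hn hn' hcan hΔ'.1 π hν key
  refine ⟨h2, ?_, fun k hk h => ⟨k, h, by rw [hk]; exact h2⟩, ?_⟩
  · rintro ⟨m, hm, ω, E, hω, h0, hind⟩
    exact kappa_lt hy hn hν h2 hm hω h0 hind
  · rintro rfl hpsef hq
    obtain ⟨m, hm, ω, hω0, hω⟩ := NV.nonvanishing hy hn hn0 hz hpsef h2 hq
    have hsec : IsSection y n m 0 ω := by rwa [smul_zero] at hω
    exact ⟨⟨m, hm, ω, hω0, hsec⟩,
      abundance_zero hy hn hn0 ⟨fun _ _ => le_rfl, hz⟩ h2 hm hω hω0⟩
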